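import Pool.Agent.H596R2.TM.NotMit

/-!
Every language of `EXP` reduces to the language constructed.
-/

namespace Pool.Agent.H596R2.TM

open Pool.Agent.H583R2 Turing

theorem spl_pair (x w : List Bool) : spl (pair x w) = (x, w) := by
  unfold spl pair
  rw [List.foldl_append, spl_aux1, List.foldl_cons]
  have e : splStep ((false, false), (x.reverse ++ [], [])) false =
    ((true, false), (x.reverse ++ [], [])) := rfl
  rw [e, spl_aux2]
  simp

/-- the instance of the universal language -/
def XX (e c m : ℕ) (y : List Bool) : List Bool :=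
  List.replicate e true ++ false :: (List.replicate (y.length ^ c + c + m) true ++ false :: y)

theorem kF_XX (f e c m : ℕ) (y : List Bool) : kF f (XX e c m y) = (gv (mE e) y f == [true]) := by
  unfold kF XX
  rw [dE_rep, rs_rep, rs_rep]

theorem XX_length (e c m : ℕ) (y : List Bool) :
    (XX e c m y).length = e + 1 + (y.length ^ c + c + m) + 1 + y.length := by
  unfold XX; simp; omega

/-- the level of bit `k` -/
def lvl (k : ℕ) : ℕ :=
  ((List.range (k + 1)).find? (fun t => decide (k < (t + 1) * (t + 1)))).getD 0

theorem lvl_spec (k : ℕ) : lvl k * lvl k ≤ k ∧ k < (lvl k + 1) * (lvl k + 1) := by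
  have key : ∀ n, (∀ t, t < n → ¬ (k < (t + 1) * (t + 1))) → n * n ≤ k := by
    intro n h
    cases n with
    | zero => simp
    | succ n => have := h n (by omega); omega
  unfold lvl
  rcases hf : (List.range (k + 1)).find? (fun t => decide (k < (t + 1) * (t + 1))) with _ | t
  · exfalso
    have := List.find?_eq_none.1 hf k (List.mem_range.2 (by omega))
    apply this
    rw [decide_eq_true_eq]
    nlinarith
  · rw [Option.getD_some]
    rw [List.find?_range_eq_some] at hf
    obtain ⟨h1, h2, h3⟩ := hf
    rw [decide_eq_true_eq] at h1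
    refine ⟨key t ?_, h1⟩
    intro j hj
    have := h3 j hj
    simpa using this

def qF (e c m : ℕ) (v : List Bool) : List Bool :=
  if decide ((spl v).2.length < (XX e c m (spl v).1).length * (XX e c m (spl v).1).length) then
    bp (lvl (spl v).2.length) ((spl v).2.take (lvl (spl v).2.length * lvl (spl v).2.length))
      ((spl v).2.length - lvl (spl v).2.length * lvl (spl v).2.length)
  else
    kp (XX e c m (spl v).1).length
      ((spl v).2.take ((XX e c m (spl v).1).length * (XX e c m (spl v).1).length))
      (XX e c m (spl v).1)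

def gF (e c m : ℕ) (v : List Bool) : List Bool :=
  [(spl v).2.getD ((XX e c m (spl v).1).length * (XX e c m (spl v).1).length) false]

theorem take_succ_getD (l : List Bool) (k : ℕ) (h : k < l.length) :
    l.take (k + 1) = l.take k ++ [l.getD k false] := by
  rw [List.take_add_one, List.getD_eq_getElem?_getD, List.getElem?_eq_getElem h]
  rfl

theorem answers_low (e c m : ℕ) (y : List Bool) : ∀ k,
    k ≤ (XX e c m y).length * (XX e c m y).length →
    answers AA (qF e c m) y k = (om (XX e c m y).length).take k := by
  intro k
  induction k with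
  | zero => intro _; simp [answers]
  | succ k ih =>
    intro hk
    have ih := ih (by omega)
    set s := (XX e c m y).length with hs
    rw [answers, ih, take_succ_getD _ _ (by rw [om_length]; omega)]
    congr 2
    have hl : ((om s).take k).length = k := by rw [List.length_take, om_length]; omega
    obtain ⟨h1, h2⟩ := lvl_spec k
    have hts : lvl k < s := by
      by_contra hc
      have : s * s ≤ lvl k * lvl k := Nat.mul_le_mul (by omega) (by omega)
      omega
    have hq : qF e c m (pair y ((om s).take k)) = bp (lvl k) (om (lvl k)) (k - lvl k * lvl k) := by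
      unfold qF
      rw [spl_pair]
      simp only [← hs, hl]
      rw [if_pos (by simpa using hk), List.take_take, min_eq_left h1, om_take hts.le]
    have hj : k - lvl k * lvl k < 2 * lvl k + 1 := by
      have : (lvl k + 1) * (lvl k + 1) = lvl k * lvl k + 2 * lvl k + 1 := by ring
      omega
    rw [hq, AA_bp hj, show lvl k * lvl k + (k - lvl k * lvl k) = k from by omega,
      om_getD hts h2]

theorem answers_take (B : List Bool → Bool) (q : List Bool → List Bool) (x : List Bool)
    (i d : ℕ) : (answers B q x (i + d)).take i = answers B q x i := by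
  induction d with
  | zero =>
    rw [List.take_of_length_le]
    · rfl
    · rw [answers_length]; omega
  | succ d ih =>
    rw [← Nat.add_assoc, answers, List.take_append_of_le_length, ih]
    rw [answers_length]; omega

theorem answer_high (e c m : ℕ) (y : List Bool) {R : ℕ}
    (hR : (XX e c m y).length * (XX e c m y).length + 1 ≤ R) :
    gF e c m (pair y (answers AA (qF e c m) y R)) =
      [kF (2 ^ (XX e c m y).length) (XX e c m y)] := by
  set s := (XX e c m y).length with hs
  obtain ⟨d, rfl⟩ := Nat.exists_eq_add_of_le hR
  unfold gF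
  rw [spl_pair]
  simp only [← hs]
  congr 1
  have h1 : (answers AA (qF e c m) y (s * s + 1 + d)).getD (s * s) false =
      ((answers AA (qF e c m) y (s * s + 1 + d)).take (s * s + 1)).getD (s * s) false := by
    rw [List.getD_eq_getElem?_getD, List.getD_eq_getElem?_getD,
      List.getElem?_take_of_lt (by omega)]
  rw [h1, answers_take, answers, answers_low e c m y (s * s) (by rw [← hs])]
  have hl : ((om s).take (s * s)).length = s * s := by rw [List.length_take, om_length]; omega
  rw [← hs, List.getD_append_right _ _ _ _ (by omega), hl, Nat.sub_self]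
  have hq : qF e c m (pair y ((om s).take (s * s))) = kp s (om s) (XX e c m y) := by
    unfold qF
    rw [spl_pair]
    simp only [← hs, hl]
    rw [if_neg (by simp), List.take_take, min_self, om_take (le_refl s)]
  rw [hq, AA_kp hs.symm]
  rfl

/-! ### complexity -/

section
variable {α : Type} [TEnc α]

theorem pf_rs {z : α → List Bool} (hz : PF z) : PF (fun a => rs (z a)) :=
  PF.drop (PF.succ (PF.dE hz)) hz

theorem pf_bp {s j : α → ℕ} {w : α → List Bool} (hs : PF s) (hw : PF w) (hj : PF j) :
    PF (fun a => bp (s a) (w a) (j a)) :=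
  PF.cons (PF.const false) (PF.append (PF.replicate hs (PF.const true))
    (PF.cons (PF.const false) (PF.append hw (PF.replicate hj (PF.const false)))))

theorem pf_kp {s : α → ℕ} {w x : α → List Bool} (hs : PF s) (hw : PF w) (hx : PF x) :
    PF (fun a => kp (s a) (w a) (x a)) :=
  PF.cons (PF.const true) (PF.append (PF.replicate hs (PF.const true))
    (PF.cons (PF.const false) (PF.append hw hx)))

theorem pf_XX (e c m : ℕ) {y : α → List Bool} (hy : PF y) : PF (fun a => XX e c m (y a)) :=
  PF.append (PF.const _) (PF.cons (PF.const false) (PF.append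
    (PF.replicate (PF.add (PF.add (pf_powConst (PF.length hy) c) (PF.const c)) (PF.const m))
      (PF.const true)) (PF.cons (PF.const false) hy)))

theorem pf_lvl {k : α → ℕ} (hk : PF k) : PF (fun a => lvl (k a)) :=
  PF.getD (PF.find (l := fun a => List.range (k a + 1))
    (f := fun a t => decide (k a < (t + 1) * (t + 1))) (PF.range (PF.succ hk))
    (PF.lt (hk.comp PF.fst) (PF.mul (PF.succ PF.snd) (PF.succ PF.snd)))) (PF.const 0)

end

theorem pf_qF (e c m : ℕ) : PF (qF e c m) := by
  have hv : PF (fun v : List Bool => spl v) := PF.spl PF.id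
  have h1 : PF (fun v : List Bool => (spl v).1) := PF.fst' hv
  have h2 : PF (fun v : List Bool => (spl v).2) := PF.snd' hv
  have hk : PF (fun v : List Bool => (spl v).2.length) := PF.length h2
  have hX : PF (fun v : List Bool => XX e c m (spl v).1) := pf_XX e c m h1
  have hs : PF (fun v : List Bool => (XX e c m (spl v).1).length) := PF.length hX
  have hss := PF.mul hs hs
  have hl := pf_lvl hk
  have hll := PF.mul hl hl
  exact PF.ite (PF.lt hk hss) (pf_bp hl (PF.take hll h2) (PF.sub hk hll))
    (pf_kp hs (PF.take hss h2) hX)

theorem pf_gF (e c m : ℕ) : PF (gF e c m) := by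
  have hv : PF (fun v : List Bool => spl v) := PF.spl PF.id
  have h1 : PF (fun v : List Bool => (spl v).1) := PF.fst' hv
  have h2 : PF (fun v : List Bool => (spl v).2) := PF.snd' hv
  have hs : PF (fun v : List Bool => (XX e c m (spl v).1).length) := PF.length (pf_XX e c m h1)
  exact PF.cons (PF.listGetD (PF.mul hs hs) h2 (PF.const false)) (PF.const [])

theorem polyTime_of_PF {f : List Bool → List Bool} (h : PF f) : PolyTime f := tm_of_PF h

theorem rounds_bound (e c m : ℕ) : ∃ d, ∀ y : List Bool,
    (XX e c m y).length * (XX e c m y).length + 1 ≤ y.length ^ d + d := by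
  have h1 : PBd (fun n => e + 1 + (n ^ c + c + m) + 1 + n) := by
    have hn : PBd (fun n => n) := ⟨1, fun t => by simp⟩
    exact (((PBd.const (e + 1)).add (((hn.pow c).add (PBd.const c)).add (PBd.const m))).add
      (PBd.const 1)).add hn
  obtain ⟨k, hk⟩ := (h1.mul h1).add (PBd.const 1)
  obtain ⟨d, hd⟩ := poly_norm (k + 1) k
  refine ⟨d, fun y => ?_⟩
  rw [XX_length]
  refine (hk y.length).trans (le_trans ?_ (hd y.length))
  have : (y.length + 2) ^ k ≤ (k + 1) * (y.length + 2) ^ k := Nat.le_mul_of_pos_left _ (by omega)
  omega

theorem hard (B : List Bool → Bool) (hB : InEXP B) : TuringReduces B AA := by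
  obtain ⟨c, M, hM⟩ := hB
  obtain ⟨cd, m, hcd⟩ := code_of_tm M
  obtain ⟨e, -, he⟩ := exists_mE cd 0
  obtain ⟨d, hd⟩ := rounds_bound e c m
  refine ⟨qF e c m, gF e c m, polyTime_of_PF (pf_qF e c m), polyTime_of_PF (pf_gF e c m), d, ?_⟩
  intro y
  rw [answer_high e c m y (hd y), kF_XX, he]
  congr 1
  unfold gv
  rw [hcd y]
  · cases B y <;> rfl
  · have h1 := (Nat.lt_two_pow_self (n := m)).le
    calc m * M.time y.length ≤ 2 ^ m * 2 ^ (y.length ^ c + c) := Nat.mul_le_mul h1 (hM _)
      _ = 2 ^ (m + (y.length ^ c + c)) := (pow_add _ _ _).symm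
      _ ≤ _ := Nat.pow_le_pow_right (by norm_num) (by rw [XX_length]; omega)

end Pool.Agent.H596R2.TM
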