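import Mathlib

/-!
# Turing reductions in polynomial time, `EXP`, complete sets, mitotic sets

Languages are functions `List Bool → Bool`.  Machines are Mathlib's multi-stack Turing machines
`Turing.FinTM2`, through `Turing.TM2ComputableInTime`.
-/

namespace Pool.Agent.H596R2.TM

open Turing

/-- Output encoding of a bit: the string of length one. -/
def encBit (b : Bool) : List Bool := [b]

/-- `f` is computed by a machine in time `n ^ c + c` for some `c`. -/
def PolyTime (f : List Bool → List Bool) : Prop :=
  ∃ c : ℕ, ∃ M : TM2ComputableInTime (id : List Bool → List Bool)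
    (id : List Bool → List Bool) f, ∀ n, M.time n ≤ n ^ c + c

/-- `S` belongs to `P`. -/
def InP (S : List Bool → Bool) : Prop :=
  ∃ c : ℕ, ∃ M : TM2ComputableInTime (id : List Bool → List Bool) encBit S,
    ∀ n, M.time n ≤ n ^ c + c

/-- `B` belongs to `EXP`: it is decided in time `2 ^ (n ^ c + c)` for some `c`. -/
def InEXP (B : List Bool → Bool) : Prop :=
  ∃ c : ℕ, ∃ M : TM2ComputableInTime (id : List Bool → List Bool) encBit B,
    ∀ n, M.time n ≤ 2 ^ (n ^ c + c)

/-- The code of the pair of strings `x`, `w`: each bit `b` of `x` is written `1 b`, then `0`,
then `w`. -/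
def pair (x w : List Bool) : List Bool := x.flatMap (fun b => [true, b]) ++ false :: w

/-- The answers of the oracle `B` to the first `k` queries on input `x` of the adaptive procedure
`q`: the next query is `q (x, answers obtained so far)`. -/
def answers (B : List Bool → Bool) (q : List Bool → List Bool) (x : List Bool) : ℕ → List Bool
  | 0 => []
  | k + 1 => answers B q x k ++ [B (q (pair x (answers B q x k)))]

/-- `A ≤_T^p B`: polynomial-time Turing reducibility.  On input `x` polynomially many queries are
asked adaptively; the next query is computed in polynomial time from `x` and the answers obtained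
so far, and the decision from `x` and all answers. -/
def TuringReduces (A B : List Bool → Bool) : Prop :=
  ∃ q g : List Bool → List Bool, PolyTime q ∧ PolyTime g ∧
    ∃ c : ℕ, ∀ x, g (pair x (answers B q x (x.length ^ c + c))) = [A x]

/-- `A ≡_T^p B` -/
def TuringEquivalent (A B : List Bool → Bool) : Prop := TuringReduces A B ∧ TuringReduces B A

/-- `A` is `≤_T^p`-complete for `EXP`. -/
def CompleteEXP (A : List Bool → Bool) : Prop := InEXP A ∧ ∀ B, InEXP B → TuringReduces B A

/-- `A` is `≤_T^p`-mitotic: for some `S` in `P`, `A` is `≤_T^p`-equivalent to `A ∩ S` and to the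
intersection of `A` with the complement of `S`. -/
def Mitotic (A : List Bool → Bool) : Prop :=
  ∃ S : List Bool → Bool, InP S ∧
    TuringEquivalent A (fun x => A x && S x) ∧
    TuringEquivalent A (fun x => A x && !S x)

end Pool.Agent.H596R2.TM
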