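import Pool.Agent.H583R2.Expo
import Pool.Agent.H596R2.TM.Notions

/-!
The construction.
-/

namespace Pool.Agent.H596R2.TM

open Pool.Agent.H583R2

/-- what follows `1^e 0` -/
def rs (z : List Bool) : List Bool := z.drop (dE z + 1)

/-- the universal language with fuel `f`: run machine `e` on `y`, for `x = 1^e 0 1^a 0 y` -/
def kF (f : ℕ) (x : List Bool) : Bool := gv (mE (dE x)) (rs (rs x)) f == [true]

/-- address of bit `j` of level `s` -/
def bp (s : ℕ) (w : List Bool) (j : ℕ) : List Bool :=
  false :: (List.replicate s true ++ false :: (w ++ List.replicate j false))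

/-- address of `x` in the coding zone of level `s` -/
def kp (s : ℕ) (w x : List Bool) : List Bool :=
  true :: (List.replicate s true ++ false :: (w ++ x))

def lv (z : List Bool) : ℕ := dE z.tail
def rt (z : List Bool) : List Bool := rs z.tail

theorem dE_rep (s : ℕ) (r : List Bool) : dE (List.replicate s true ++ false :: r) = s := by
  unfold dE; rw [stripT_rep]

theorem rs_rep (s : ℕ) (r : List Bool) : rs (List.replicate s true ++ false :: r) = r := by
  unfold rs
  rw [dE_rep, List.drop_append]
  simp

theorem lv_bp (s : ℕ) (w : List Bool) (j : ℕ) : lv (bp s w j) = s := dE_rep _ _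
theorem rt_bp (s : ℕ) (w : List Bool) (j : ℕ) : rt (bp s w j) = w ++ List.replicate j false :=
  rs_rep _ _
theorem lv_kp (s : ℕ) (w x : List Bool) : lv (kp s w x) = s := dE_rep _ _
theorem rt_kp (s : ℕ) (w x : List Bool) : rt (kp s w x) = w ++ x := rs_rep _ _

/-- membership as determined by the prefix `w` of the key sequence -/
def Aw (N : ℕ) (w z : List Bool) : Bool :=
  if z.headD false then
    decide (lv z * lv z ≤ w.length) &&
      (decide ((rt z).length = lv z * lv z + lv z) &&
      ((z == kp (lv z) (w.take (lv z * lv z)) ((rt z).drop (lv z * lv z))) &&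
        kF (min (2 ^ lv z) N) ((rt z).drop (lv z * lv z))))
  else
    decide ((rt z).length < w.length) &&
      (decide (lv z * lv z ≤ (rt z).length) &&
      (decide ((rt z).length < (lv z + 1) * (lv z + 1)) &&
      ((z == bp (lv z) (w.take (lv z * lv z)) ((rt z).length - lv z * lv z)) &&
        w.getD (rt z).length false)))

theorem Aw_bp {N s j : ℕ} {w : List Bool} (h : s * s + j < w.length) (hj : j < 2 * s + 1) :
    Aw N w (bp s (w.take (s * s)) j) = w.getD (s * s + j) false := by
  have h1 : (bp s (w.take (s * s)) j).headD false = false := rfl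
  have h2 : (w.take (s * s) ++ List.replicate j false).length = s * s + j := by
    rw [List.length_append, List.length_take, List.length_replicate]; omega
  have h3 : s * s + j < (s + 1) * (s + 1) := by nlinarith
  unfold Aw
  rw [h1, lv_bp, rt_bp, h2]
  simp only [Bool.false_eq_true, if_false]
  have h4 : s * s ≤ s * s + j := Nat.le_add_right _ _
  rw [show s * s + j - s * s = j from by omega]
  simp [h, h3]

theorem Aw_kp {N s : ℕ} {w x : List Bool} (hs : s * s ≤ w.length) (hx : x.length = s)
    (hN : 2 ^ s ≤ N) : Aw N w (kp s (w.take (s * s)) x) = kF (2 ^ s) x := by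
  have h1 : (kp s (w.take (s * s)) x).headD false = true := rfl
  have h2 : (w.take (s * s)).length = s * s := by rw [List.length_take]; omega
  unfold Aw
  rw [h1, lv_kp, rt_kp]
  simp only [if_true]
  rw [List.length_append, h2, hx, List.drop_append, List.drop_of_length_le (by omega), h2]
  simp [hs, hN]

theorem Aw_cases {N : ℕ} {w z : List Bool} (h : Aw N w z = true) :
    (∃ s j, j < 2 * s + 1 ∧ s * s + j < w.length ∧ z = bp s (w.take (s * s)) j ∧
      w.getD (s * s + j) false = true) ∨
    (∃ s x, s * s ≤ w.length ∧ x.length = s ∧ z = kp s (w.take (s * s)) x ∧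
      kF (min (2 ^ s) N) x = true) := by
  unfold Aw at h
  split at h
  · right
    simp only [Bool.and_eq_true, decide_eq_true_eq, beq_iff_eq] at h
    obtain ⟨h1, h2, h3, h4⟩ := h
    refine ⟨lv z, (rt z).drop (lv z * lv z), h1, ?_, h3, h4⟩
    rw [List.length_drop]; omega
  · left
    simp only [Bool.and_eq_true, decide_eq_true_eq, beq_iff_eq] at h
    obtain ⟨h1, h2, h3, h4, h5⟩ := h
    refine ⟨lv z, (rt z).length - lv z * lv z, ?_, ?_, h4, ?_⟩
    · have : (lv z + 1) * (lv z + 1) = lv z * lv z + 2 * lv z + 1 := by ring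
      omega
    · omega
    · rw [show lv z * lv z + ((rt z).length - lv z * lv z) = (rt z).length from by omega]
      exact h5

/-! ### requirements -/

/-- query machine, output machine, exponent -/
abbrev Mch := Code × (Code × ℕ)
/-- machine for `S`, reduction to the part outside `S`, reduction to the part in `S` -/
abbrev Req := Code × (Mch × Mch)

def decMch : Tr → Mch := decP decCode (decP decCode decN)

theorem decMch_enc (m : Mch) : decMch (enc m) = m :=
  decP_enc decCode_enc (decP_enc decCode_enc decN_enc) m

def req (t : ℕ) : Req := decP decCode (decP decMch decMch) (parse (str t))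

theorem exists_req (r : Req) (n : ℕ) : ∃ t, n ≤ t ∧ req t = r := by
  obtain ⟨e, h1, h2⟩ := exists_index (enc r) n
  refine ⟨e, h1, ?_⟩
  unfold req
  rw [h2, decP_enc decCode_enc (decP_enc decMch_enc decMch_enc)]

/-! ### a stage -/

def sS (c : Code) (F : ℕ) (z : List Bool) : Bool := gv c z F == [true]

/-- are at least `t + 1` of the addresses in `S`? -/
def side (c : Code) (F t : ℕ) (w : List Bool) : Bool :=
  decide (t + 1 ≤ ((List.range (2 * t + 1)).filter (fun j => sS c F (bp t w j))).length)

def hid (c : Code) (F t : ℕ) (w : List Bool) (j : ℕ) : Bool :=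
  sS c F (bp t w j) == side c F t w

def mach (r : Req) (b : Bool) : Mch := if b then r.2.1 else r.2.2

def runF (N : ℕ) (w : List Bool) (cS : Code) (sd : Bool) (F : ℕ) (cq : Code) (z : List Bool)
    (k : ℕ) : List Bool :=
  (fun a => a ++ [Aw N w (gv cq (pair z a) F) && (sS cS F (gv cq (pair z a) F) == !sd)])^[k] []

def rnd (e n F : ℕ) : ℕ := min (min (n ^ e) F + e) (F - 1)

def fu (N t : ℕ) : ℕ := min (2 ^ t) N
def sdS (N t : ℕ) (w : List Bool) : Bool := side (req t).1 (fu N t) t w
def mS (N t : ℕ) (w : List Bool) : Mch := mach (req t) (sdS N t w)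
def jS (N t : ℕ) (w : List Bool) : ℕ :=
  ((List.range (2 * t + 1)).find? (fun j => hid (req t).1 (fu N t) t w j)).getD 0
def zS (N t : ℕ) (w : List Bool) : List Bool := bp t w (jS N t w)
def rS (N t : ℕ) (w : List Bool) : ℕ := rnd (mS N t w).2.2 (zS N t w).length (fu N t)
def aS (N t : ℕ) (w : List Bool) : List Bool :=
  runF N w (req t).1 (sdS N t w) (fu N t) (mS N t w).1 (zS N t w) (rS N t w)
def bS (N t : ℕ) (w : List Bool) : Bool :=
  gv (mS N t w).2.1 (pair (zS N t w) (aS N t w)) (fu N t) == [true]
def qS (N t : ℕ) (w : List Bool) (i : ℕ) : List Bool :=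
  gv (mS N t w).1 (pair (zS N t w) ((aS N t w).take i)) (fu N t)

def okB (N t : ℕ) (w b : List Bool) : Bool :=
  (b.getD (jS N t w) false == !(bS N t w)) &&
    ((List.range (2 * t + 1)).all (fun j => hid (req t).1 (fu N t) t w j || !(b.getD j false)) &&
      (List.range (rS N t w)).all (fun i =>
        !((rt (qS N t w i)).take ((t + 1) * (t + 1)) == w ++ b)))

/-- the block of bits of level `t` -/
def stg (N t : ℕ) (w : List Bool) : List Bool :=
  match (posM (min (2 ^ (2 * t + 1)) N)).find? (fun p => okB N t w (str p)) with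
  | none => List.replicate (2 * t + 1) false
  | some p => str p

/-- the first `t ^ 2` bits of the key sequence -/
def om : ℕ → List Bool
  | 0 => []
  | t + 1 => om t ++ stg (2 ^ (2 * t + 1)) t (om t)

/-- the language -/
def AA (z : List Bool) : Bool := Aw (2 ^ z.length) (om z.length) z

end Pool.Agent.H596R2.TM
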