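import Pool.Agent.H596R2.TM.Compl

/-!
The language is in `EXP`.
-/

namespace Pool.Agent.H596R2.TM

open Pool.Agent.H583R2 Turing

section
variable {α : Type} [TEnc α]

theorem pf_lv {z : α → List Bool} (hz : PF z) : PF (fun a => lv (z a)) := PF.dE (PF.tail hz)
theorem pf_rt {z : α → List Bool} (hz : PF z) : PF (fun a => rt (z a)) := pf_rs (PF.tail hz)

theorem pf_kF {f : α → ℕ} {x : α → List Bool} (hf : PF f) (hx : PF x) :
    PF (fun a => kF (f a) (x a)) :=
  PF.beqStr (pf_gv (PF.mE (PF.dE hx)) (pf_rs (pf_rs hx)) hf) (PF.const [true])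

theorem pf_Aw {N : α → ℕ} {w z : α → List Bool} (hN : PF N) (hw : PF w) (hz : PF z) :
    PF (fun a => Aw (N a) (w a) (z a)) := by
  have hl := pf_lv hz
  have hr := pf_rt hz
  have hll := PF.mul hl hl
  have hwt := PF.take hll hw
  have hrl := PF.length hr
  refine (PF.ite (PF.headF hz)
    (f := fun a => decide (lv (z a) * lv (z a) ≤ (w a).length) &&
      (decide ((rt (z a)).length = lv (z a) * lv (z a) + lv (z a)) &&
      ((z a == kp (lv (z a)) ((w a).take (lv (z a) * lv (z a)))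
        ((rt (z a)).drop (lv (z a) * lv (z a)))) &&
        kF (min (2 ^ lv (z a)) (N a)) ((rt (z a)).drop (lv (z a) * lv (z a))))))
    (g := fun a => decide ((rt (z a)).length < (w a).length) &&
      (decide (lv (z a) * lv (z a) ≤ (rt (z a)).length) &&
      (decide ((rt (z a)).length < (lv (z a) + 1) * (lv (z a) + 1)) &&
      ((z a == bp (lv (z a)) ((w a).take (lv (z a) * lv (z a)))
        ((rt (z a)).length - lv (z a) * lv (z a))) &&
        (w a).getD (rt (z a)).length false)))) ?_ ?_).congr ?_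
  · exact PF.and (PF.le hll (PF.length hw)) (PF.and (PF.natEq hrl (PF.add hll hl))
      (PF.and (PF.beqStr hz (pf_kp hl hwt (PF.drop hll hr)))
        (pf_kF (pf_cexp hl hN) (PF.drop hll hr))))
  · exact PF.and (PF.lt hrl (PF.length hw)) (PF.and (PF.le hll hrl)
      (PF.and (PF.lt hrl (PF.mul (PF.succ hl) (PF.succ hl)))
        (PF.and (PF.beqStr hz (pf_bp hl hwt (PF.sub hrl hll)))
          (PF.listGetD hrl hw (PF.const false)))))
  · intro a
    unfold Aw
    cases (z a).headD false <;> rfl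

theorem pf_decMch {x : α → Tr} (hx : PF x) : PF (fun a => decMch (x a)) := by
  unfold decMch
  exact PF.decP (PF.decCode PF.id) (PF.decP (PF.decCode PF.id) (PF.decN PF.id) PF.id) hx

theorem pf_req {t : α → ℕ} (ht : PF t) : PF (fun a => req (t a)) := by
  unfold req
  exact PF.decP (PF.decCode PF.id) (PF.decP (pf_decMch PF.id) (pf_decMch PF.id) PF.id)
    (PF.parse (PF.str ht))

theorem pf_sS {c : α → Code} {F : α → ℕ} {z : α → List Bool} (hc : PF c) (hF : PF F)
    (hz : PF z) : PF (fun a => sS (c a) (F a) (z a)) :=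
  PF.beqStr (pf_gv hc hz hF) (PF.const [true])

theorem pf_side {c : α → Code} {F t : α → ℕ} {w : α → List Bool} (hc : PF c) (hF : PF F)
    (ht : PF t) (hw : PF w) : PF (fun a => side (c a) (F a) (t a) (w a)) :=
  PF.le (PF.succ ht) (PF.length (PF.filter (l := fun a => List.range (2 * t a + 1))
    (f := fun a j => sS (c a) (F a) (bp (t a) (w a) j))
    (PF.range (PF.succ (PF.mul (PF.const 2) ht)))
    (pf_sS (hc.comp PF.fst) (hF.comp PF.fst)
      (pf_bp (ht.comp PF.fst) (hw.comp PF.fst) PF.snd))))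

theorem pf_hid {c : α → Code} {F t j : α → ℕ} {w : α → List Bool} (hc : PF c) (hF : PF F)
    (ht : PF t) (hw : PF w) (hj : PF j) : PF (fun a => hid (c a) (F a) (t a) (w a) (j a)) :=
  PF.beqBool (pf_sS hc hF (pf_bp ht hw hj)) (pf_side hc hF ht hw)

theorem pf_mach {r : α → Req} {b : α → Bool} (hr : PF r) (hb : PF b) :
    PF (fun a => mach (r a) (b a)) :=
  (PF.ite hb (PF.fst' (PF.snd' hr)) (PF.snd' (PF.snd' hr))).congr (fun a => by
    unfold mach; cases b a <;> rfl)

theorem pf_pair {x w : α → List Bool} (hx : PF x) (hw : PF w) :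
    PF (fun a => pair (x a) (w a)) :=
  PF.append (PF.flatMap (f := fun _ b => [true, b]) hx
    (PF.cons (PF.const true) (PF.cons PF.snd (PF.const [])))) (PF.cons (PF.const false) hw)

theorem pf_runF {N F k : α → ℕ} {w z : α → List Bool} {cS cq : α → Code} {sd : α → Bool}
    (hN : PF N) (hw : PF w) (hc : PF cS) (hsd : PF sd) (hF : PF F) (hq : PF cq) (hz : PF z)
    (hk : PF k) : PF (fun a => runF (N a) (w a) (cS a) (sd a) (F a) (cq a) (z a) (k a)) := by
  have hy : PF (fun p : α × List Bool => gv (cq p.1) (pair (z p.1) p.2) (F p.1)) :=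
    pf_gv (hq.comp PF.fst) (pf_pair (hz.comp PF.fst) PF.snd) (hF.comp PF.fst)
  refine PF.iterateAdd (n := k) (s := fun _ => ([] : List Bool))
    (f := fun a l => l ++ [Aw (N a) (w a) (gv (cq a) (pair (z a) l) (F a)) &&
      (sS (cS a) (F a) (gv (cq a) (pair (z a) l) (F a)) == !(sd a))]) hk (PF.const [])
    (PF.append PF.snd (PF.cons (PF.and (pf_Aw (hN.comp PF.fst) (hw.comp PF.fst) hy)
      (PF.beqBool (pf_sS (hc.comp PF.fst) (hF.comp PF.fst) hy)
        (PF.not (hsd.comp PF.fst)))) (PF.const [])))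
    (inc := fun _ => 4) (bnd := fun _ => 0) (PB.const 4) (PB.const 0) ?_
  intro a st
  refine le_trans ?_ (le_max_left _ _)
  generalize (Aw (N a) (w a) (gv (cq a) (pair (z a) st) (F a)) &&
      (sS (cS a) (F a) (gv (cq a) (pair (z a) st) (F a)) == !(sd a))) = b
  have h1 := sz_append st [b]
  have h2 := sz_bool b
  rw [sz_cons, sz_nil] at h1
  omega

theorem pf_rnd {e n F : α → ℕ} (he : PF e) (hn : PF n) (hF : PF F) :
    PF (fun a => rnd (e a) (n a) (F a)) :=
  PF.min (PF.add (pf_cpow hn he hF) he) (PF.pred hF)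

theorem pf_fu {N t : α → ℕ} (hN : PF N) (ht : PF t) : PF (fun a => fu (N a) (t a)) :=
  pf_cexp ht hN

variable {N t : α → ℕ} {w : α → List Bool}

theorem pf_sdS (hN : PF N) (ht : PF t) (hw : PF w) : PF (fun a => sdS (N a) (t a) (w a)) :=
  pf_side (PF.fst' (pf_req ht)) (pf_fu hN ht) ht hw

theorem pf_mS (hN : PF N) (ht : PF t) (hw : PF w) : PF (fun a => mS (N a) (t a) (w a)) :=
  pf_mach (pf_req ht) (pf_sdS hN ht hw)

theorem pf_jS (hN : PF N) (ht : PF t) (hw : PF w) : PF (fun a => jS (N a) (t a) (w a)) :=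
  PF.getD (PF.find (l := fun a => List.range (2 * t a + 1))
    (f := fun a j => hid (req (t a)).1 (fu (N a) (t a)) (t a) (w a) j)
    (PF.range (PF.succ (PF.mul (PF.const 2) ht)))
    (pf_hid (PF.fst' (pf_req (ht.comp PF.fst))) (pf_fu (hN.comp PF.fst) (ht.comp PF.fst))
      (ht.comp PF.fst) (hw.comp PF.fst) PF.snd)) (PF.const 0)

theorem pf_zS (hN : PF N) (ht : PF t) (hw : PF w) : PF (fun a => zS (N a) (t a) (w a)) :=
  pf_bp ht hw (pf_jS hN ht hw)

theorem pf_rS (hN : PF N) (ht : PF t) (hw : PF w) : PF (fun a => rS (N a) (t a) (w a)) :=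
  pf_rnd (PF.snd' (PF.snd' (pf_mS hN ht hw))) (PF.length (pf_zS hN ht hw)) (pf_fu hN ht)

theorem pf_aS (hN : PF N) (ht : PF t) (hw : PF w) : PF (fun a => aS (N a) (t a) (w a)) :=
  pf_runF hN hw (PF.fst' (pf_req ht)) (pf_sdS hN ht hw) (pf_fu hN ht)
    (PF.fst' (pf_mS hN ht hw)) (pf_zS hN ht hw) (pf_rS hN ht hw)

theorem pf_bS (hN : PF N) (ht : PF t) (hw : PF w) : PF (fun a => bS (N a) (t a) (w a)) :=
  PF.beqStr (pf_gv (PF.fst' (PF.snd' (pf_mS hN ht hw)))
    (pf_pair (pf_zS hN ht hw) (pf_aS hN ht hw)) (pf_fu hN ht)) (PF.const [true])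

theorem pf_qS (hN : PF N) (ht : PF t) (hw : PF w) {i : α → ℕ} (hi : PF i) :
    PF (fun a => qS (N a) (t a) (w a) (i a)) :=
  pf_gv (PF.fst' (pf_mS hN ht hw))
    (pf_pair (pf_zS hN ht hw) (PF.take hi (pf_aS hN ht hw))) (pf_fu hN ht)

theorem pf_okB (hN : PF N) (ht : PF t) (hw : PF w) {b : α → List Bool} (hb : PF b) :
    PF (fun a => okB (N a) (t a) (w a) (b a)) := by
  refine PF.and (PF.beqBool (PF.listGetD (pf_jS hN ht hw) hb (PF.const false))
    (PF.not (pf_bS hN ht hw))) (PF.and ?_ ?_)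
  · exact PF.all (l := fun a => List.range (2 * t a + 1))
      (f := fun a j => hid (req (t a)).1 (fu (N a) (t a)) (t a) (w a) j || !((b a).getD j false))
      (PF.range (PF.succ (PF.mul (PF.const 2) ht)))
      (PF.or (pf_hid (PF.fst' (pf_req (ht.comp PF.fst)))
        (pf_fu (hN.comp PF.fst) (ht.comp PF.fst)) (ht.comp PF.fst) (hw.comp PF.fst) PF.snd)
        (PF.not (PF.listGetD PF.snd (hb.comp PF.fst) (PF.const false))))
  · exact PF.all (l := fun a => List.range (rS (N a) (t a) (w a)))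
      (f := fun a i => !((rt (qS (N a) (t a) (w a) i)).take ((t a + 1) * (t a + 1)) ==
        w a ++ b a)) (PF.range (pf_rS hN ht hw))
      (PF.not (PF.beqStr (PF.take (PF.mul (PF.succ (ht.comp PF.fst)) (PF.succ (ht.comp PF.fst)))
        (pf_rt (pf_qS (hN.comp PF.fst) (ht.comp PF.fst) (hw.comp PF.fst) PF.snd)))
        (PF.append (hw.comp PF.fst) (hb.comp PF.fst))))

theorem pf_stg (hN : PF N) (ht : PF t) (hw : PF w) : PF (fun a => stg (N a) (t a) (w a)) := by
  have h2 := PF.succ (PF.mul (PF.const 2) ht)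
  have h := PF.find (l := fun a => posM (min (2 ^ (2 * t a + 1)) (N a)))
    (f := fun a p => okB (N a) (t a) (w a) (str p)) (pf_posM (pf_cexp h2 hN))
    (pf_okB (hN.comp PF.fst) (ht.comp PF.fst) (hw.comp PF.fst) (PF.str PF.snd))
  refine (h.optCase (g := fun a => List.replicate (2 * t a + 1) false) (h := fun _ p => str p)
    (PF.replicate h2 (PF.const false)) (PF.str PF.snd)).congr ?_
  intro a
  unfold stg
  rcases (posM (min (2 ^ (2 * t a + 1)) (N a))).find? (fun p => okB (N a) (t a) (w a) (str p))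
    with _ | p <;> rfl

end

/-! ### independence of the cap -/

theorem Aw_cap {N N' t : ℕ} {w : List Bool} (hN : 2 ^ t ≤ N) (hN' : 2 ^ t ≤ N')
    (hw : w.length ≤ t * t) (z : List Bool) : Aw N w z = Aw N' w z := by
  unfold Aw
  by_cases h : lv z * lv z ≤ w.length
  · have h1 : lv z ≤ t := by
      by_contra hc
      have : (t + 1) * (t + 1) ≤ lv z * lv z := Nat.mul_le_mul (by omega) (by omega)
      nlinarith
    have h2 : 2 ^ lv z ≤ 2 ^ t := Nat.pow_le_pow_right (by norm_num) h1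
    rw [min_eq_left (h2.trans hN), min_eq_left (h2.trans hN')]
  · simp [h]

theorem runF_cap {N N' t : ℕ} {w : List Bool} (hN : 2 ^ t ≤ N) (hN' : 2 ^ t ≤ N')
    (hw : w.length ≤ t * t) (cS : Code) (sd : Bool) (F : ℕ) (cq : Code) (z : List Bool) (k : ℕ) :
    runF N w cS sd F cq z k = runF N' w cS sd F cq z k := by
  unfold runF
  have : (fun a => a ++ [Aw N w (gv cq (pair z a) F) && (sS cS F (gv cq (pair z a) F) == !sd)]) =
      (fun a => a ++ [Aw N' w (gv cq (pair z a) F) && (sS cS F (gv cq (pair z a) F) == !sd)]) := by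
    funext a
    rw [Aw_cap hN hN' hw]
  rw [this]

theorem stg_cap {N N' t : ℕ} {w : List Bool} (hN : 2 ^ (2 * t + 1) ≤ N)
    (hN' : 2 ^ (2 * t + 1) ≤ N') (hw : w.length ≤ t * t) : stg N t w = stg N' t w := by
  have h0 : 2 ^ t ≤ 2 ^ (2 * t + 1) := Nat.pow_le_pow_right (by norm_num) (by omega)
  have hf : fu N t = fu N' t := by
    unfold fu; rw [min_eq_left (h0.trans hN), min_eq_left (h0.trans hN')]
  have hsd : sdS N t w = sdS N' t w := by unfold sdS; rw [hf]
  have hm : mS N t w = mS N' t w := by unfold mS; rw [hsd]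
  have hj : jS N t w = jS N' t w := by unfold jS; rw [hf]
  have hz : zS N t w = zS N' t w := by unfold zS; rw [hj]
  have hr : rS N t w = rS N' t w := by unfold rS; rw [hf, hm, hz]
  have ha : aS N t w = aS N' t w := by
    unfold aS
    rw [hf, hm, hz, hr, hsd]
    exact runF_cap (h0.trans hN) (h0.trans hN') hw _ _ _ _ _ _
  have hb : bS N t w = bS N' t w := by unfold bS; rw [hf, hm, hz, ha]
  have hq : ∀ i, qS N t w i = qS N' t w i := by intro i; unfold qS; rw [hf, hm, hz, ha]
  have hok : ∀ b, okB N t w b = okB N' t w b := by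
    intro b
    unfold okB
    rw [hj, hb, hf, hr]
    simp only [hq]
  unfold stg
  simp only [hok]
  rw [min_eq_left hN, min_eq_left hN']

/-- the keys with cap `N` -/
def omN (N t : ℕ) : ℕ × List Bool := (fun p : ℕ × List Bool => (p.1 + 1, p.2 ++ stg N p.1 p.2))^[t]
  (0, [])

theorem omN_eq {N t : ℕ} (h : 2 ^ (2 * t) ≤ N) : omN N t = (t, om t) := by
  induction t with
  | zero => rfl
  | succ t ih =>
    have h1 : 2 ^ (2 * t) ≤ N := le_trans (Nat.pow_le_pow_right (by norm_num) (by omega)) h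
    have h2 : 2 ^ (2 * t + 1) ≤ N := le_trans (Nat.pow_le_pow_right (by norm_num) (by omega)) h
    have ih := ih h1
    unfold omN at ih ⊢
    rw [Function.iterate_succ_apply', ih]
    simp only
    rw [stg_cap h2 (le_refl _) (by rw [om_length]), om]

theorem stg_len_le (N t : ℕ) (w : List Bool) : (stg N t w).length ≤ 2 * t + 1 := by
  unfold stg
  rcases hf : (posM (min (2 ^ (2 * t + 1)) N)).find? (fun p => okB N t w (str p)) with _ | p
  · simp
  · simp only
    have h1 := mem_posM.1 (List.mem_of_find?_eq_some hf)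
    have h2 : min (2 ^ (2 * t + 1)) N ≤ 2 ^ (2 * t + 1) := min_le_left _ _
    have h3 := le_idx (str p)
    rw [idx_str] at h3
    have h4 : 2 ^ (str p).length < 2 ^ (2 * t + 2) := by
      rw [show 2 * t + 2 = 2 * t + 1 + 1 from rfl, pow_succ 2 (2 * t + 1)]
      omega
    have h5 := (Nat.pow_lt_pow_iff_right (a := 2) (by norm_num)).1 h4
    omega

theorem omN_sz (N t : ℕ) : (omN N t).1 = t ∧ (omN N t).2.length ≤ t * t := by
  induction t with
  | zero => exact ⟨rfl, by simp [omN]⟩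
  | succ t ih =>
    obtain ⟨h1, h2⟩ := ih
    have h3 : omN N (t + 1) = ((omN N t).1 + 1, (omN N t).2 ++ stg N (omN N t).1 (omN N t).2) := by
      unfold omN; rw [Function.iterate_succ_apply']
    rw [h3]
    refine ⟨by rw [h1], ?_⟩
    simp only [List.length_append]
    have h4 := stg_len_le N (omN N t).1 (omN N t).2
    rw [h1] at h4
    rw [h1]
    nlinarith

theorem pf_omN {α : Type} [TEnc α] {N t : α → ℕ} (hN : PF N) (ht : PF t) :
    PF (fun a => omN (N a) (t a)) := by
  have hf : PF (fun p : α × (ℕ × List Bool) =>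
      (p.2.1 + 1, p.2.2 ++ stg (N p.1) p.2.1 p.2.2)) :=
    PF.pair (PF.succ (PF.fst' PF.snd)) (PF.append (PF.snd' PF.snd)
      (pf_stg (hN.comp PF.fst) (PF.fst' PF.snd) (PF.snd' PF.snd)))
  have hb : PB (fun a => 2 * t a + (4 * (t a * t a) + 3)) := by
    have h1 := PF.add (PF.mul (PF.const 2) ht)
      (PF.add (PF.mul (PF.const 4) (PF.mul ht ht)) (PF.const 3))
    exact pb_of_sz h1.size
  refine PF.iterate (n := t) (s := fun _ => ((0, []) : ℕ × List Bool))
    (f := fun a p => (p.1 + 1, p.2 ++ stg (N a) p.1 p.2)) ht (PF.const _) hf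
    (b := fun a => 2 * t a + (4 * (t a * t a) + 3)) hb ?_
  intro a j hj
  have h := omN_sz (N a) j
  change sz (omN (N a) j) ≤ _
  rw [sz_prod, sz_nat, h.1]
  have h2 := sz_str_le (omN (N a) j).2
  have h3 : j * j ≤ t a * t a := Nat.mul_le_mul hj hj
  omega

theorem AA_exp : InEXP AA := by
  obtain ⟨k, M, hM⟩ := tm_exp (f := AA) encB (fun n => 2 * n)
    (PF.mul (PF.const 2) (PF.length PF.id))
    (g := fun p => [Aw p.2 (omN p.2 p.1.length).2 p.1])
    (PF.cons (pf_Aw PF.snd (PF.snd' (pf_omN PF.snd (PF.length PF.fst))) PF.fst) (PF.const []))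
    (by
      intro x
      rw [omN_eq (le_refl _)]
      unfold AA
      have h : 2 ^ x.length ≤ 2 ^ (2 * x.length) := Nat.pow_le_pow_right (by norm_num) (by omega)
      rw [Aw_cap (t := x.length) h (le_refl _) (by rw [om_length])]
      rfl)
  obtain ⟨c, hc⟩ := exp_norm k 2 1
  refine ⟨c, M, fun n => (hM n).trans (le_trans ?_ (hc n))⟩
  have h : n + 2 ^ (2 * n) + 2 ≤ 2 ^ ((n + 2) ^ 2 + 1) := by
    have h1 : n + 2 < 2 ^ (n + 2) := Nat.lt_two_pow_self
    have h2 : n + 2 ≤ (n + 2) ^ 2 := by nlinarith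
    have h3 : 2 ^ (n + 2) ≤ 2 ^ ((n + 2) ^ 2) := Nat.pow_le_pow_right (by norm_num) h2
    have h4 : 2 ^ (2 * n) ≤ 2 ^ ((n + 2) ^ 2) :=
      Nat.pow_le_pow_right (by norm_num) (by nlinarith)
    rw [pow_succ 2 ((n + 2) ^ 2)]
    omega
  exact Nat.add_le_add_right (Nat.mul_le_mul_left _ (Nat.pow_le_pow_left h _)) _

theorem complete : CompleteEXP AA := ⟨AA_exp, hard⟩

end Pool.Agent.H596R2.TM
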