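import Pool.Agent.H596R2.TM.Stage

/-!
The language is not mitotic.
-/

namespace Pool.Agent.H596R2.TM

open Pool.Agent.H583R2 Turing

theorem answers_length (B : List Bool → Bool) (q : List Bool → List Bool) (x : List Bool) (k : ℕ) :
    (answers B q x k).length = k := by
  induction k with
  | zero => rfl
  | succ k ih => rw [answers, List.length_append, ih]; rfl

theorem pair_length (x w : List Bool) : (pair x w).length = 2 * x.length + 1 + w.length := by
  unfold pair
  rw [List.length_append, List.length_cons]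
  have : (x.flatMap (fun b => [true, b])).length = 2 * x.length := by
    induction x with
    | nil => rfl
    | cons b x ih => rw [List.flatMap_cons, List.length_append, ih]; simp; omega
  omega

/-- at stage `t` the machine for the side which misses the bits fails -/
theorem stage_fails {t N : ℕ} {w : List Bool} (hN : N = 2 ^ (2 * t + 1)) (hw : w = om t)
    {S B : List Bool → Bool} {q g : List Bool → List Bool} {c : ℕ}
    (hB : ∀ y, B y = (AA y && (S y == !(sdS N t w))))
    (he : (mS N t w).2.2 = c)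
    (hR : (zS N t w).length ^ c + c < 2 ^ t)
    (hq : ∀ a : List Bool, a.length ≤ (zS N t w).length ^ c + c →
      gv (mS N t w).1 (pair (zS N t w) a) (2 ^ t) = q (pair (zS N t w) a))
    (hg : ∀ a : List Bool, a.length ≤ (zS N t w).length ^ c + c →
      gv (mS N t w).2.1 (pair (zS N t w) a) (2 ^ t) = g (pair (zS N t w) a))
    (hS : ∀ a : List Bool, a.length ≤ (zS N t w).length ^ c + c →
      sS (req t).1 (2 ^ t) (q (pair (zS N t w) a)) = S (q (pair (zS N t w) a))) :
    g (pair (zS N t w) (answers B q (zS N t w) ((zS N t w).length ^ c + c))) ≠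
      [AA (zS N t w)] := by
  have hNt : 2 ^ t ≤ N := by rw [hN]; exact Nat.pow_le_pow_right (by norm_num) (by omega)
  have hfu : fu N t = 2 ^ t := min_eq_left hNt
  have hRS : rS N t w = (zS N t w).length ^ c + c := by
    unfold rS rnd
    rw [hfu, he]
    have h1 : (zS N t w).length ^ c ≤ 2 ^ t := by omega
    rw [min_eq_left h1, min_eq_left (by omega)]
  obtain ⟨hl, hok⟩ := stg_spec (N := N) (t := t) (le_of_eq hN.symm) (w := w)
  have hom : om (t + 1) = w ++ stg N t w := by rw [om, hN, hw]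
  unfold okB at hok
  rw [Bool.and_eq_true, Bool.and_eq_true] at hok
  obtain ⟨hok1, hok2, hok3⟩ := hok
  rw [List.all_eq_true] at hok2 hok3
  have hwl : w.length = t * t := by rw [hw, om_length]
  have hbit : ∀ j, (om (t + 1)).getD (t * t + j) false = (stg N t w).getD j false := by
    intro j
    rw [hom, List.getD_append_right _ _ _ _ (by omega)]
    congr 1; omega
  have hlow : ∀ y, (rt y).take ((t + 1) * (t + 1)) ≠ om (t + 1) →
      (∀ j < 2 * t + 1, y = bp t w j → (om (t + 1)).getD (t * t + j) false = false) →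
      AA y = Aw N w y := by
    subst hw
    intro y h1 h2
    exact AA_low hNt h1 h2
  have hAbp : ∀ j, j < 2 * t + 1 → AA (bp t w j) = (stg N t w).getD j false := by
    intro j hj
    rw [← hbit]
    subst hw
    exact AA_bp hj
  -- the run
  have hrun : ∀ k, k ≤ rS N t w → runF N w (req t).1 (sdS N t w) (fu N t) (mS N t w).1
      (zS N t w) k = answers B q (zS N t w) k := by
    intro k
    induction k with
    | zero => intro _; rfl
    | succ k ih =>
      intro hk
      have ih := ih (by omega)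
      rw [runF_succ, answers, ih, hfu]
      have hlen : (answers B q (zS N t w) k).length ≤ (zS N t w).length ^ c + c := by
        rw [answers_length]; omega
      have h1 := hq _ hlen
      have h2 := hS _ hlen
      rw [h1, h2, hB]
      have h3 : qS N t w k = q (pair (zS N t w) (answers B q (zS N t w) k)) := by
        unfold qS
        rw [aS_take (by omega), ih, hfu, h1]
      congr 2
      rcases hv : (S (q (pair (zS N t w) (answers B q (zS N t w) k))) == !(sdS N t w)) with _ | _
      · simp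
      · rw [Bool.and_true, Bool.and_true]
        symm
        refine hlow _ ?_ ?_
        · have h4 := hok3 k (List.mem_range.2 (by omega))
          rw [Bool.not_eq_true', beq_eq_false_iff_ne, h3, ← hom] at h4
          exact h4
        · intro j hj hy
          rw [hbit]
          have h4 := hok2 j (List.mem_range.2 hj)
          rw [Bool.or_eq_true] at h4
          rcases h4 with h4 | h4
          · exfalso
            unfold hid at h4
            rw [hfu] at h4
            rw [← hy, h2] at h4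
            have h6 : sdS N t w = side (req t).1 (2 ^ t) t w := by unfold sdS; rw [hfu]
            rw [← h6] at h4
            rw [beq_iff_eq] at h4 hv
            rw [h4] at hv
            cases h7 : sdS N t w <;> rw [h7] at hv <;> exact absurd hv (by decide)
          · simpa using h4
  have ha : aS N t w = answers B q (zS N t w) ((zS N t w).length ^ c + c) := by
    rw [← hRS]
    exact hrun _ (le_refl _)
  intro hcon
  have hj := (jS_spec N t w).1
  have hAz : AA (zS N t w) = (stg N t w).getD (jS N t w) false := hAbp _ hj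
  have hb : bS N t w = AA (zS N t w) := by
    unfold bS
    rw [hfu, hg _ (by rw [ha, answers_length]), ha, hcon]
    cases AA (zS N t w) <;> rfl
  rw [beq_iff_eq, ← hAz, hb] at hok1
  cases h : AA (zS N t w) <;> rw [h] at hok1 <;> exact absurd hok1 (by decide)

/-! ### simulation by codes -/

/-- `cd` computes `f` with polynomial fuel -/
def Sim (cd : Code) (f : List Bool → List Bool) : Prop :=
  ∃ K : ℕ, ∀ x F, K * (x.length + 2) ^ K ≤ F → gv cd x F = f x

theorem sim_bound (m c n : ℕ) : m * (n ^ c + c) ≤ (m + m * c + c) * (n + 2) ^ (m + m * c + c) := by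
  have h1 : n ^ c ≤ (n + 2) ^ (m + m * c + c) :=
    (Nat.pow_le_pow_left (by omega) c).trans (Nat.pow_le_pow_right (by omega) (by omega))
  have h2 : 1 ≤ (n + 2) ^ (m + m * c + c) := Nat.one_le_pow _ _ (by omega)
  nlinarith [Nat.mul_le_mul_left m h1, Nat.mul_le_mul_left (m * c) h2,
    Nat.zero_le (c * (n + 2) ^ (m + m * c + c))]

theorem sim_of_tm {β : Type} {eb : β → List Bool} {f : List Bool → β}
    (M : TM2ComputableInTime (id : List Bool → List Bool) eb f) {c : ℕ}
    (hM : ∀ n, M.time n ≤ n ^ c + c) : ∃ cd, Sim cd (fun x => eb (f x)) := by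
  obtain ⟨cd, m, hcd⟩ := code_of_tm M
  refine ⟨cd, m + m * c + c, ?_⟩
  intro x F hF
  unfold gv
  rw [hcd x F]
  · rfl
  · exact (Nat.mul_le_mul_left m (hM _)).trans ((sim_bound m c _).trans hF)

theorem Sim.length_le {cd : Code} {f : List Bool → List Bool} {K : ℕ}
    (h : ∀ x F, K * (x.length + 2) ^ K ≤ F → gv cd x F = f x) (x : List Bool) :
    (f x).length ≤ x.length + K * (x.length + 2) ^ K := by
  rw [← h x _ (le_refl _)]
  exact U_length_le cd x _

/-- polynomially bounded -/
def PBd (f : ℕ → ℕ) : Prop := ∃ k, ∀ t, f t ≤ (t + 2) ^ k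

theorem PBd.const (a : ℕ) : PBd (fun _ => a) := by
  refine ⟨a, fun t => ?_⟩
  have h1 := (Nat.lt_two_pow_self (n := a)).le
  exact h1.trans (Nat.pow_le_pow_left (by omega) _)

theorem PBd.add {f g : ℕ → ℕ} (hf : PBd f) (hg : PBd g) : PBd (fun t => f t + g t) := by
  obtain ⟨a, ha⟩ := hf
  obtain ⟨b, hb⟩ := hg
  refine ⟨a + b + 1, fun t => ?_⟩
  have h1 : f t ≤ (t + 2) ^ (a + b) := (ha t).trans (Nat.pow_le_pow_right (by omega) (by omega))
  have h2 : g t ≤ (t + 2) ^ (a + b) := (hb t).trans (Nat.pow_le_pow_right (by omega) (by omega))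
  rw [pow_succ]
  nlinarith [Nat.zero_le (t * (t + 2) ^ (a + b))]

theorem PBd.mul {f g : ℕ → ℕ} (hf : PBd f) (hg : PBd g) : PBd (fun t => f t * g t) := by
  obtain ⟨a, ha⟩ := hf
  obtain ⟨b, hb⟩ := hg
  refine ⟨a + b, fun t => ?_⟩
  rw [pow_add]
  exact Nat.mul_le_mul (ha t) (hb t)

theorem PBd.pow {f : ℕ → ℕ} (hf : PBd f) (n : ℕ) : PBd (fun t => f t ^ n) := by
  induction n with
  | zero => exact ⟨0, fun t => by simp⟩
  | succ n ih =>
    obtain ⟨k, hk⟩ := ih.mul hf
    exact ⟨k, fun t => by simp only [pow_succ]; exact hk t⟩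

theorem PBd.lt_exp {f : ℕ → ℕ} (hf : PBd f) : ∃ t0, ∀ t, t0 ≤ t → f t < 2 ^ t := by
  obtain ⟨k, hk⟩ := hf
  obtain ⟨n0, hn0⟩ := poly_lt_exp 2 (2 * k + 1)
  refine ⟨n0 + 2, fun t ht => ?_⟩
  have h1 := hn0 t (by omega)
  have h2 : (t + 2) ^ k ≤ t ^ (2 * k) := by
    rw [pow_mul]; exact Nat.pow_le_pow_left (add_two_le_sq t (by omega)) _
  have h3 : t ^ (2 * k) ≤ t ^ (2 * k + 1) := Nat.pow_le_pow_right (by omega) (by omega)
  have h4 := hk t
  omega

theorem zS_length_le (N t : ℕ) : (zS N t (om t)).length ≤ (t + 2) ^ 2 := by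
  unfold zS
  rw [bp_length, om_length]
  have := (jS_spec N t (om t)).1
  nlinarith

/-- for large `t` the simulation at stage `t` is faithful -/
theorem exists_stage {fS q g : List Bool → List Bool} {cS cq cg : Code} (hS : Sim cS fS)
    (hq : Sim cq q) (hg : Sim cg g) (c : ℕ) : ∃ t0, ∀ t, t0 ≤ t → ∀ z : List Bool,
      z.length ≤ (t + 2) ^ 2 → z.length ^ c + c < 2 ^ t ∧
      ∀ a : List Bool, a.length ≤ z.length ^ c + c →
        gv cq (pair z a) (2 ^ t) = q (pair z a) ∧ gv cg (pair z a) (2 ^ t) = g (pair z a) ∧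
        gv cS (q (pair z a)) (2 ^ t) = fS (q (pair z a)) := by
  obtain ⟨K, hS⟩ := hS
  obtain ⟨L, hq⟩ := hq
  obtain ⟨M, hg⟩ := hg
  have hid : PBd (fun t => (t + 2) ^ 2) := ⟨2, fun t => le_refl _⟩
  have h1 : PBd (fun t => ((t + 2) ^ 2) ^ c + c) := (hid.pow c).add (PBd.const c)
  have h2 : PBd (fun t => 2 * (t + 2) ^ 2 + 1 + (((t + 2) ^ 2) ^ c + c)) :=
    (((PBd.const 2).mul hid).add (PBd.const 1)).add h1
  set P : ℕ → ℕ := fun t => 2 * (t + 2) ^ 2 + 1 + (((t + 2) ^ 2) ^ c + c) with hP
  have h3 : PBd (fun t => L * (P t + 2) ^ L) :=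
    (PBd.const L).mul ((h2.add (PBd.const 2)).pow L)
  have h4 : PBd (fun t => M * (P t + 2) ^ M) :=
    (PBd.const M).mul ((h2.add (PBd.const 2)).pow M)
  have h5 : PBd (fun t => K * (P t + L * (P t + 2) ^ L + 2) ^ K) :=
    (PBd.const K).mul (((h2.add h3).add (PBd.const 2)).pow K)
  obtain ⟨t1, ht1⟩ := h1.lt_exp
  obtain ⟨t3, ht3⟩ := h3.lt_exp
  obtain ⟨t4, ht4⟩ := h4.lt_exp
  obtain ⟨t5, ht5⟩ := h5.lt_exp
  refine ⟨t1 + t3 + t4 + t5, ?_⟩
  intro t ht z hz
  have hzc : z.length ^ c ≤ ((t + 2) ^ 2) ^ c := Nat.pow_le_pow_left hz c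
  refine ⟨lt_of_le_of_lt (Nat.add_le_add_right hzc c) (ht1 t (by omega)), ?_⟩
  intro a ha
  have hpl : (pair z a).length ≤ P t := by
    rw [pair_length]
    simp only [hP]
    omega
  have hL : L * ((pair z a).length + 2) ^ L ≤ L * (P t + 2) ^ L :=
    Nat.mul_le_mul_left _ (Nat.pow_le_pow_left (by omega) _)
  have hM : M * ((pair z a).length + 2) ^ M ≤ M * (P t + 2) ^ M :=
    Nat.mul_le_mul_left _ (Nat.pow_le_pow_left (by omega) _)
  refine ⟨hq _ _ (hL.trans (ht3 t (by omega)).le), hg _ _ (hM.trans (ht4 t (by omega)).le), ?_⟩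
  refine hS _ _ (le_trans (Nat.mul_le_mul_left _ (Nat.pow_le_pow_left ?_ _)) (ht5 t (by omega)).le)
  have := Sim.length_le hq (pair z a)
  omega

theorem not_both (S : List Bool → Bool) (hS : InP S)
    (h1 : TuringReduces AA (fun x => AA x && S x))
    (h2 : TuringReduces AA (fun x => AA x && !S x)) : False := by
  obtain ⟨cs, MS, hMS⟩ := hS
  obtain ⟨q1, g1, ⟨c1, M1, hM1⟩, ⟨d1, N1, hN1⟩, e1, he1⟩ := h1
  obtain ⟨q2, g2, ⟨c2, M2, hM2⟩, ⟨d2, N2, hN2⟩, e2, he2⟩ := h2
  obtain ⟨kS, hkS⟩ := sim_of_tm MS hMS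
  obtain ⟨kq1, hkq1⟩ := sim_of_tm M1 hM1
  obtain ⟨kg1, hkg1⟩ := sim_of_tm N1 hN1
  obtain ⟨kq2, hkq2⟩ := sim_of_tm M2 hM2
  obtain ⟨kg2, hkg2⟩ := sim_of_tm N2 hN2
  obtain ⟨t1, ht1⟩ := exists_stage hkS hkq1 hkg1 e1
  obtain ⟨t2, ht2⟩ := exists_stage hkS hkq2 hkg2 e2
  obtain ⟨t, ht, hreq⟩ := exists_req (kS, ((kq2, (kg2, e2)), (kq1, (kg1, e1)))) (t1 + t2)
  have hsS : ∀ y, gv kS y (2 ^ t) = encBit (S y) → sS (req t).1 (2 ^ t) y = S y := by
    intro y hy
    unfold sS
    rw [hreq]
    dsimp only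
    rw [hy]
    unfold encBit
    cases S y <;> rfl
  set N : ℕ := 2 ^ (2 * t + 1) with hN
  have hz := zS_length_le N t
  cases hsd : sdS N t (om t)
  · -- the part in `S` misses many bits
    have hm : mS N t (om t) = (kq1, (kg1, e1)) := by
      unfold mS mach
      rw [hsd, hreq]
      rfl
    obtain ⟨h3, h4⟩ := ht1 t (by omega) _ hz
    refine stage_fails hN rfl (S := S) (B := fun x => AA x && S x) (q := q1) (g := g1) (c := e1)
      ?_ (by rw [hm]) h3 ?_ ?_ ?_ (he1 _)
    · intro y
      rw [hsd]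
      cases S y <;> rfl
    · intro a ha
      rw [hm]
      exact (h4 a ha).1
    · intro a ha
      rw [hm]
      exact (h4 a ha).2.1
    · intro a ha
      exact hsS _ (h4 a ha).2.2
  · -- the part outside `S` misses many bits
    have hm : mS N t (om t) = (kq2, (kg2, e2)) := by
      unfold mS mach
      rw [hsd, hreq]
      rfl
    obtain ⟨h3, h4⟩ := ht2 t (by omega) _ hz
    refine stage_fails hN rfl (S := S) (B := fun x => AA x && !S x) (q := q2) (g := g2) (c := e2)
      ?_ (by rw [hm]) h3 ?_ ?_ ?_ (he2 _)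
    · intro y
      rw [hsd]
      cases S y <;> rfl
    · intro a ha
      rw [hm]
      exact (h4 a ha).1
    · intro a ha
      rw [hm]
      exact (h4 a ha).2.1
    · intro a ha
      exact hsS _ (h4 a ha).2.2

theorem not_mitotic : ¬ Mitotic AA := by
  rintro ⟨S, hS, ⟨h1, -⟩, ⟨h2, -⟩⟩
  exact not_both S hS h1 h2

end Pool.Agent.H596R2.TM
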