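import Pool.Agent.H596R2.TM.Defs

/-!
Existence of a suitable block.
-/

namespace Pool.Agent.H596R2.TM

open Pool.Agent.H583R2

theorem runF_zero (N : ℕ) (w : List Bool) (cS : Code) (sd : Bool) (F : ℕ) (cq : Code)
    (z : List Bool) : runF N w cS sd F cq z 0 = [] := rfl

theorem runF_succ (N : ℕ) (w : List Bool) (cS : Code) (sd : Bool) (F : ℕ) (cq : Code)
    (z : List Bool) (k : ℕ) : runF N w cS sd F cq z (k + 1) = runF N w cS sd F cq z k ++
      [Aw N w (gv cq (pair z (runF N w cS sd F cq z k)) F) &&
        (sS cS F (gv cq (pair z (runF N w cS sd F cq z k)) F) == !sd)] := by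
  unfold runF
  rw [Function.iterate_succ_apply']

theorem runF_length (N : ℕ) (w : List Bool) (cS : Code) (sd : Bool) (F : ℕ) (cq : Code)
    (z : List Bool) (k : ℕ) : (runF N w cS sd F cq z k).length = k := by
  induction k with
  | zero => rfl
  | succ k ih => rw [runF_succ, List.length_append, ih]; rfl

theorem runF_take (N : ℕ) (w : List Bool) (cS : Code) (sd : Bool) (F : ℕ) (cq : Code)
    (z : List Bool) (i d : ℕ) : (runF N w cS sd F cq z (i + d)).take i = runF N w cS sd F cq z i := by
  induction d with
  | zero =>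
    rw [List.take_of_length_le]
    · rfl
    · rw [runF_length]; omega
  | succ d ih =>
    rw [← Nat.add_assoc, runF_succ, List.take_append_of_le_length, ih]
    rw [runF_length]; omega

theorem aS_take {N t : ℕ} {w : List Bool} {i : ℕ} (h : i ≤ rS N t w) :
    (aS N t w).take i = runF N w (req t).1 (sdS N t w) (fu N t) (mS N t w).1 (zS N t w) i := by
  unfold aS
  obtain ⟨d, hd⟩ := Nat.exists_eq_add_of_le h
  rw [hd]
  exact runF_take _ _ _ _ _ _ _ _ _

/-- the indices of the hidden addresses -/
def hs (N t : ℕ) (w : List Bool) : List ℕ :=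
  (List.range (2 * t + 1)).filter (fun j => hid (req t).1 (fu N t) t w j)

theorem filter_length_add {α : Type} (l : List α) (p : α → Bool) :
    (l.filter p).length + (l.filter (fun a => !p a)).length = l.length := by
  induction l with
  | nil => rfl
  | cons a l ih =>
    by_cases h : p a = true
    · rw [List.filter_cons_of_pos h, List.filter_cons_of_neg (by simp [h])]
      simp only [List.length_cons]; omega
    · rw [List.filter_cons_of_neg h, List.filter_cons_of_pos (by simpa using h)]
      simp only [List.length_cons]; omega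

theorem hs_length (N t : ℕ) (w : List Bool) : t + 1 ≤ (hs N t w).length := by
  unfold hs hid
  have h1 := filter_length_add (List.range (2 * t + 1))
    (fun j => sS (req t).1 (fu N t) (bp t w j))
  rw [List.length_range] at h1
  by_cases h : t + 1 ≤ ((List.range (2 * t + 1)).filter
      (fun j => sS (req t).1 (fu N t) (bp t w j))).length
  · have hd : side (req t).1 (fu N t) t w = true := by unfold side; simp [h]
    rw [hd]
    simpa using h
  · have hd : side (req t).1 (fu N t) t w = false := by unfold side; simpa using h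
    rw [hd]
    simp only [beq_false]
    omega

theorem jS_spec (N t : ℕ) (w : List Bool) :
    jS N t w < 2 * t + 1 ∧ hid (req t).1 (fu N t) t w (jS N t w) = true := by
  unfold jS
  rcases hf : (List.range (2 * t + 1)).find? (fun j => hid (req t).1 (fu N t) t w j) with _ | j
  · exfalso
    have h1 := hs_length N t w
    have h2 : hs N t w = [] := by
      unfold hs
      rw [List.filter_eq_nil_iff]
      intro a ha
      exact List.find?_eq_none.1 hf a ha
    rw [h2] at h1
    simp at h1
  · have h1 := List.find?_some hf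
    have h2 := List.mem_of_find?_eq_some hf
    rw [Option.getD_some]
    exact ⟨List.mem_range.1 h2, h1⟩

theorem rS_lt {N t : ℕ} (hN : 2 ^ t ≤ N) (w : List Bool) : rS N t w < 2 ^ t := by
  unfold rS rnd fu
  have h1 : min (2 ^ t) N = 2 ^ t := min_eq_left hN
  rw [h1]
  have h2 : 1 ≤ 2 ^ t := Nat.one_le_two_pow
  have h3 := min_le_right (min ((zS N t w).length ^ (mS N t w).2.2) (2 ^ t) + (mS N t w).2.2)
    (2 ^ t - 1)
  omega

/-- the block attached to a set of indices -/
def blkT (t j0 : ℕ) (v : Bool) (T : Finset ℕ) : List Bool :=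
  (List.range (2 * t + 1)).map (fun j => if j = j0 then v else decide (j ∈ T))

theorem blkT_length (t j0 : ℕ) (v : Bool) (T : Finset ℕ) : (blkT t j0 v T).length = 2 * t + 1 := by
  unfold blkT; rw [List.length_map, List.length_range]

theorem blkT_getD {t j0 : ℕ} {v : Bool} {T : Finset ℕ} {j : ℕ} (hj : j < 2 * t + 1) :
    (blkT t j0 v T).getD j false = if j = j0 then v else decide (j ∈ T) := by
  unfold blkT
  rw [List.getD_eq_getElem?_getD, List.getElem?_map, List.getElem?_range hj]
  rfl

theorem blkT_inj {t j0 : ℕ} {v : Bool} {T T' : Finset ℕ}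
    (hT : ∀ j ∈ T, j < 2 * t + 1 ∧ j ≠ j0) (hT' : ∀ j ∈ T', j < 2 * t + 1 ∧ j ≠ j0)
    (h : blkT t j0 v T = blkT t j0 v T') : T = T' := by
  ext j
  by_cases hj : j < 2 * t + 1 ∧ j ≠ j0
  · have h1 := blkT_getD (t := t) (j0 := j0) (v := v) (T := T) hj.1
    have h2 := blkT_getD (t := t) (j0 := j0) (v := v) (T := T') hj.1
    rw [if_neg hj.2] at h1 h2
    rw [h, h2] at h1
    have := decide_eq_decide.1 h1
    exact this.symm
  · constructor
    · intro h1; exact absurd (hT j h1) hj
    · intro h1; exact absurd (hT' j h1) hj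

theorem exists_ok {N t : ℕ} (hN : 2 ^ t ≤ N) {w : List Bool} :
    ∃ b : List Bool, b.length = 2 * t + 1 ∧ okB N t w b = true := by
  classical
  obtain ⟨hj1, hj2⟩ := jS_spec N t w
  set j0 := jS N t w with hj0
  set P : Finset ℕ := (hs N t w).toFinset.erase j0 with hP
  have hnd : (hs N t w).Nodup := List.Nodup.filter _ List.nodup_range
  have hmem : j0 ∈ (hs N t w).toFinset := by
    rw [List.mem_toFinset]
    unfold hs
    rw [List.mem_filter]
    exact ⟨List.mem_range.2 hj1, hj2⟩
  have hcard : t ≤ P.card := by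
    rw [hP, Finset.card_erase_of_mem hmem, List.toFinset_card_of_nodup hnd]
    have := hs_length N t w
    omega
  have hPm : ∀ j ∈ P, j < 2 * t + 1 ∧ j ≠ j0 ∧ hid (req t).1 (fu N t) t w j = true := by
    intro j hj
    rw [hP, Finset.mem_erase, List.mem_toFinset] at hj
    unfold hs at hj
    rw [List.mem_filter, List.mem_range] at hj
    exact ⟨hj.2.1, hj.1, hj.2.2⟩
  -- the killed blocks
  set R := rS N t w with hR
  set Kl : Finset (List Bool) := (Finset.range R).image
    (fun i => (rt (qS N t w i)).take ((t + 1) * (t + 1))) with hKl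
  set G : Finset (List Bool) := P.powerset.image (fun T => w ++ blkT t j0 (!(bS N t w)) T) with hG
  have hGc : G.card = 2 ^ P.card := by
    rw [hG, Finset.card_image_of_injOn, Finset.card_powerset]
    intro T hT T' hT' he
    have hT := Finset.mem_powerset.1 (Finset.mem_coe.1 hT)
    have hT' := Finset.mem_powerset.1 (Finset.mem_coe.1 hT')
    exact blkT_inj (fun j hj => ⟨(hPm j (hT hj)).1, (hPm j (hT hj)).2.1⟩)
      (fun j hj => ⟨(hPm j (hT' hj)).1, (hPm j (hT' hj)).2.1⟩) (List.append_cancel_left he)
  have hlt : Kl.card < G.card := by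
    have h1 : Kl.card ≤ R := by
      rw [hKl]
      exact Finset.card_image_le.trans (by rw [Finset.card_range])
    have h2 := rS_lt hN w
    have h3 : 2 ^ t ≤ 2 ^ P.card := Nat.pow_le_pow_right (by norm_num) hcard
    rw [hGc]
    omega
  obtain ⟨g, hg, hgk⟩ := Finset.exists_mem_notMem_of_card_lt_card hlt
  rw [hG, Finset.mem_image] at hg
  obtain ⟨T, hT, rfl⟩ := hg
  rw [Finset.mem_powerset] at hT
  refine ⟨blkT t j0 (!(bS N t w)) T, blkT_length _ _ _ _, ?_⟩
  unfold okB
  rw [Bool.and_eq_true, Bool.and_eq_true]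
  refine ⟨?_, ?_, ?_⟩
  · rw [← hj0, blkT_getD hj1, if_pos rfl]
    simp
  · rw [List.all_eq_true]
    intro j hj
    have hj := List.mem_range.1 hj
    rw [blkT_getD hj]
    by_cases h1 : j = j0
    · subst h1; rw [hj2]; rfl
    · rw [if_neg h1]
      by_cases h2 : j ∈ T
      · rw [(hPm j (hT h2)).2.2]; rfl
      · simp [h2]
  · rw [List.all_eq_true]
    intro i hi
    have hi := List.mem_range.1 hi
    rw [Bool.not_eq_true', beq_eq_false_iff_ne]
    intro he
    apply hgk
    rw [hKl, Finset.mem_image]
    exact ⟨i, Finset.mem_range.2 hi, he⟩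

theorem stg_spec {N t : ℕ} (hN : 2 ^ (2 * t + 1) ≤ N) {w : List Bool} :
    (stg N t w).length = 2 * t + 1 ∧ okB N t w (stg N t w) = true := by
  have h0 : 2 ^ t ≤ N := le_trans (Nat.pow_le_pow_right (by norm_num) (by omega)) hN
  obtain ⟨b, hb, hok⟩ := exists_ok h0 (w := w)
  unfold stg
  rw [min_eq_left hN]
  rcases hf : (posM (2 ^ (2 * t + 1))).find? (fun p => okB N t w (str p)) with _ | p
  · exfalso
    have h1 : idx b ∈ posM (2 ^ (2 * t + 1)) := by
      rw [mem_posM]
      have h2 := le_idx b
      have h3 := idx_lt b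
      rw [hb] at h2 h3
      rw [pow_succ 2 (2 * t + 1)] at h3
      omega
    have h2 := List.find?_eq_none.1 hf _ h1
    rw [str_idx] at h2
    exact h2 hok
  · have h1 := List.find?_some (p := fun p => okB N t w (str p)) hf
    exact ⟨length_str_posM (List.mem_of_find?_eq_some hf), h1⟩

theorem om_length (t : ℕ) : (om t).length = t * t := by
  induction t with
  | zero => rfl
  | succ t ih =>
    rw [om, List.length_append, ih, (stg_spec (le_refl _)).1]
    ring

theorem om_take {s t : ℕ} (h : s ≤ t) : (om t).take (s * s) = om s := by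
  induction t, h using Nat.le_induction with
  | base => rw [List.take_of_length_le]; rw [om_length]
  | succ t ht ih =>
    rw [om, List.take_append_of_le_length, ih]
    rw [om_length]
    exact Nat.mul_le_mul ht ht

theorem om_getD {s t i : ℕ} (h : s ≤ t) (hi : i < s * s) :
    (om t).getD i false = (om s).getD i false := by
  rw [← om_take h, List.getD_eq_getElem?_getD, List.getD_eq_getElem?_getD,
    List.getElem?_take_of_lt hi]

/-! ### the language -/

theorem sq_lt (s j : ℕ) (h : j < 2 * s + 1) : s * s + j < (s + 1) * (s + 1) := by nlinarith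

theorem bp_length (s : ℕ) (w : List Bool) (j : ℕ) : (bp s w j).length = s + 2 + w.length + j := by
  unfold bp; simp; omega

theorem kp_length (s : ℕ) (w x : List Bool) : (kp s w x).length = s + 2 + w.length + x.length := by
  unfold kp; simp; omega

theorem Aw_om_bp {N n s j : ℕ} (hs : s < n) (hj : j < 2 * s + 1) :
    Aw N (om n) (bp s (om s) j) = (om (s + 1)).getD (s * s + j) false := by
  have h1 := sq_lt s j hj
  have h2 : (s + 1) * (s + 1) ≤ n * n := Nat.mul_le_mul hs hs
  rw [← om_take hs.le, Aw_bp (by rw [om_length]; omega) hj, om_getD hs h1]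

theorem Aw_om_kp {N n s : ℕ} {x : List Bool} (hs : s ≤ n) (hx : x.length = s) (hN : 2 ^ s ≤ N) :
    Aw N (om n) (kp s (om s) x) = kF (2 ^ s) x := by
  rw [← om_take hs, Aw_kp (by rw [om_length]; exact Nat.mul_le_mul hs hs) hx hN]

theorem AA_bp {s j : ℕ} (hj : j < 2 * s + 1) :
    AA (bp s (om s) j) = (om (s + 1)).getD (s * s + j) false := by
  unfold AA
  refine Aw_om_bp ?_ hj
  rw [bp_length]; omega

theorem AA_kp {s : ℕ} {x : List Bool} (hx : x.length = s) :
    AA (kp s (om s) x) = kF (2 ^ s) x := by
  unfold AA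
  have h : s ≤ (kp s (om s) x).length := by rw [kp_length]; omega
  exact Aw_om_kp h hx (Nat.pow_le_pow_right (by norm_num) h)

theorem Aw_om_cases {N n : ℕ} {z : List Bool} (h : Aw N (om n) z = true) :
    (∃ s j, s < n ∧ j < 2 * s + 1 ∧ z = bp s (om s) j ∧
      (om (s + 1)).getD (s * s + j) false = true) ∨
    (∃ s x, s ≤ n ∧ x.length = s ∧ z = kp s (om s) x ∧ kF (min (2 ^ s) N) x = true) := by
  rcases Aw_cases h with ⟨s, j, h1, h2, h3, h4⟩ | ⟨s, x, h1, h2, h3, h4⟩
  · left
    rw [om_length] at h2
    have hs : s < n := by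
      by_contra hc
      have : n * n ≤ s * s := Nat.mul_le_mul (by omega) (by omega)
      omega
    rw [om_take hs.le] at h3
    rw [om_getD hs (sq_lt s j h1)] at h4
    exact ⟨s, j, hs, h1, h3, h4⟩
  · right
    rw [om_length] at h1
    have hs : s ≤ n := by
      by_contra hc
      have : (n + 1) * (n + 1) ≤ s * s := Nat.mul_le_mul (by omega) (by omega)
      nlinarith
    rw [om_take hs] at h3
    exact ⟨s, x, hs, h2, h3, h4⟩

/-- the queries that do not mention the key of level `t` only see the levels up to `t` -/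
theorem AA_low {N t : ℕ} (hN : 2 ^ t ≤ N) {y : List Bool}
    (hy : (rt y).take ((t + 1) * (t + 1)) ≠ om (t + 1))
    (hb : ∀ j < 2 * t + 1, y = bp t (om t) j → (om (t + 1)).getD (t * t + j) false = false) :
    AA y = Aw N (om t) y := by
  rw [Bool.eq_iff_iff]
  constructor
  · intro h
    unfold AA at h
    rcases Aw_om_cases h with ⟨s, j, h1, h2, h3, h4⟩ | ⟨s, x, h1, h2, h3, h4⟩
    · rcases lt_trichotomy s t with hl | hl | hl
      · rw [h3, Aw_om_bp hl h2]; exact h4
      · exfalso
        subst hl
        rw [hb j h2 h3] at h4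
        exact absurd h4 (by decide)
      · exfalso
        apply hy
        have h5 : (t + 1) * (t + 1) ≤ s * s := Nat.mul_le_mul hl hl
        rw [h3, rt_bp, List.take_append_of_le_length (by rw [om_length]; exact h5), om_take hl]
    · rcases Nat.lt_or_ge t s with hl | hl
      · exfalso
        apply hy
        have h5 : (t + 1) * (t + 1) ≤ s * s := Nat.mul_le_mul hl hl
        rw [h3, rt_kp, List.take_append_of_le_length (by rw [om_length]; exact h5), om_take hl]
      · have h5 : 2 ^ s ≤ 2 ^ y.length := Nat.pow_le_pow_right (by norm_num) h1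
        rw [min_eq_left h5] at h4
        rw [h3, Aw_om_kp hl h2 (le_trans (Nat.pow_le_pow_right (by norm_num) hl) hN)]
        exact h4
  · intro h
    rcases Aw_om_cases h with ⟨s, j, h1, h2, h3, h4⟩ | ⟨s, x, h1, h2, h3, h4⟩
    · rw [h3, AA_bp h2]; exact h4
    · have h5 : 2 ^ s ≤ N := le_trans (Nat.pow_le_pow_right (by norm_num) h1) hN
      rw [min_eq_left h5] at h4
      rw [h3, AA_kp h2]; exact h4

end Pool.Agent.H596R2.TM
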